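import Pool.Agent.KS6_25.CP.P5

/-!
# Goldbach partitions with a Chen prime in `(√(2 n), n)`, for almost all `n` in short intervals

Let `h` be a positive even number. For almost all `n` in every interval of length `H ≥ N ^ (1 / 3 + ρ)` the number `2 n` has
`≥ c n / log ^ 3 n` partitions `2 n = p + q` into primes with `√(2 n) < p < n` for which `p + h` has at most two prime
factors, unless there is a local obstruction (`3 ∤ h` and `2 n ≡ h (mod 3)`). More generally this holds for `k` numbers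
at the same time, with the same prime `p`, for almost all members of products of thin families in short intervals if their
additive energies are minimal up to a power of `log N`, and for all their neighbours.

Proof. The mean square of the exponential sum with the von Mangoldt function minus its sieve model over the
`N ^ (2 / 3 - ρ)` consecutive frequencies `α + s / (2 N + 1)` is smaller than the trivial bound by any power of `log N`
(`Pool.Agent.KS6_25.SH.kest`). With the indicator function of the Chen primes as a weight, this allows to replace the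
primes `b_i - p` by the sieve model with the level `log ^ E N` for almost all members
(`Pool.Agent.KS6_25.CP.low_short`). The resulting sums over the Chen primes in a sifted set are bounded from below by
Chen's theorem inside sifted sets (`Pool.Agent.KS6_25.CP.model_low`, following `Pool.Agent.KS6_51.CH`).
-/

set_option autoImplicit false

namespace Pool.Agent.Results.MP_33f996_nt.ChenShortIntervals

open Finset Filter
open Pool.Agent.KS6_25.CP (Ok Bs CC cntW low_nbhd model_chen Bs_sub)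

open Classical in
/-- The number of the Goldbach partitions `2 n = p + q` with primes `p`, `q`, `√(2 n) < p < n`, for which `p + h` has at
most two prime factors, counted with multiplicity, all of them at least `n ^ (1 / 10)`. -/
noncomputable def partitions (h n : ℕ) : ℕ :=
  ((Ioo 0 n).filter (fun p : ℕ => p.Prime ∧ (2 * n - p).Prime ∧ √(2 * (n : ℝ)) < p ∧
    (p + h).primeFactorsList.length ≤ 2 ∧ ∀ q : ℕ, q.Prime → q ∣ p + h → (n : ℝ) ^ (1 / 10 : ℝ) ≤ q)).card

open Classical in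
/-- The number of the primes `p` with `N < p ≤ 2 N` such that `p + h` has at most two prime factors, counted with
multiplicity, all of them at least `N ^ (1 / 9)`, and such that all the numbers `b i - p` are (positive) primes. -/
noncomputable def count (h N : ℕ) {k : ℕ} (b : Fin k → ℤ) : ℕ :=
  ((Ioc N (2 * N)).filter (fun p : ℕ => p.Prime ∧ (p + h).primeFactorsList.length ≤ 2 ∧
    (∀ q : ℕ, q.Prime → q ∣ p + h → (N : ℝ) ^ (1 / 9 : ℝ) ≤ q) ∧ ∀ i, (b i - p).toNat.Prime)).card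

/-- There is no local obstruction: no prime divides `r (r + h) ∏ i, (b i - r)` for all `r`. -/
def Unobstructed (h : ℕ) {k : ℕ} (b : Fin k → ℤ) : Prop :=
  ∀ l : ℕ, l.Prime → ∃ r : ℤ, ¬ (l : ℤ) ∣ r ∧ ¬ (l : ℤ) ∣ r + h ∧ ∀ i, ¬ (l : ℤ) ∣ b i - r

/-- The additive energy of order `h` of a finite family of integers: the number of the solutions of
`v (x 1) + ... + v (x h) = v (y 1) + ... + v (y h)`. -/
noncomputable def energy (h : ℕ) {ι : Type} [Fintype ι] (v : ι → ℤ) : ℕ :=
  Nat.card {q : (Fin h → ι) × (Fin h → ι) // ∑ j, v (q.1 j) = ∑ j, v (q.2 j)}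

/-- the property of a member -/
theorem count_of {h k N : ℕ} {δ c : ℝ} {D : ℕ} {b : Fin k → ℤ} (hk : (1 : ℝ) ≤ Real.log N ^ D)
    (hb : ∀ i, (2 * N : ℤ) ≤ b i) (hc : CC (Bs 0 h ∅ δ) (fun α β : Fin k → ℤ => Ok 0 h ∅ α β) 2 c D N b)
    (hu : Unobstructed h b) : c * (N / Real.log N ^ (k + 2)) ≤ (count h N b : ℝ) := by
  classical
  have h1 := hc (fun _ => -1) (fun _ => by norm_num) (fun _ => by simpa using hk) (by
    intro p hp
    obtain ⟨r, r1, r2, r3⟩ := hu p hp
    refine ⟨r, by simpa using r1, r2, fun s hs => absurd hs (Finset.notMem_empty s), fun l hl => r3 l ?_⟩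
    have e : b l - r = -1 * r + b l := by ring
    rw [e]
    exact hl)
  have e0 : 2 + k = k + 2 := by ring
  rw [e0] at h1
  refine h1.trans ?_
  have h2 : cntW (Bs 0 h ∅ δ N) (fun _ => -1) b ≤ count h N b := by
    unfold cntW count
    apply card_le_card
    intro p hp
    unfold Bs at hp
    rw [mem_filter, mem_filter] at hp
    rw [mem_filter]
    obtain ⟨⟨h1, h2, h3, h4, -⟩, h5⟩ := hp
    refine ⟨h1, by simpa using h2, h3, h4, fun i => ?_⟩
    have h6 := h5 i
    rw [mem_Ioc] at h1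
    have h7 := hb i
    have e : (b i - p).toNat = (-1 * (p : ℤ) + b i).natAbs := by omega
    rw [e]
    exact h6
  exact_mod_cast h2

/-- the general form, small `ρ` -/
theorem main (h : ℕ) (hh : 1 ≤ h) (k : ℕ) (hk : 1 ≤ k) : ∃ c : ℝ, 0 < c ∧ ∀ (m B C V U : ℕ), 1 ≤ m → ∀ ρ : ℝ, 0 < ρ → ρ ≤ 1 / 4 →
    ∃ N₀ : ℕ, ∀ N : ℕ, N₀ ≤ N → ∀ (s : Fin k → ℤ) (H : Fin k → ℕ), (∀ i, (N : ℝ) ^ (1 / 3 + ρ) ≤ H i) → (∀ i, H i ≤ N) →
      ∀ (ι : Fin k → Type) [∀ i, Fintype (ι i)] (v : ∀ i, ι i → ℤ),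
      (∀ i j, 5 * (N : ℤ) ≤ v i j ∧ v i j ≤ B * N) → (∀ i j, s i ≤ v i j ∧ v i j ≤ s i + H i) →
      (∀ i, (energy m (v i) : ℝ) * H i ≤ Real.log N ^ C * (Fintype.card (ι i) : ℝ) ^ (2 * m)) →
      ∀ 𝒮 : Finset (∀ i, ι i), (∀ q ∈ 𝒮, ¬ ∀ b : Fin k → ℤ, (∀ i, |(b i : ℝ) - v i (q i)| ≤ Real.log N ^ V) →
        Unobstructed h b → c * (N / Real.log N ^ (k + 2)) ≤ (count h N b : ℝ)) →
      (𝒮.card : ℝ) ≤ (∏ i, (Fintype.card (ι i) : ℝ)) / Real.log N ^ U := by
  classical
  obtain ⟨δ, c, hδ, hc, hlow⟩ := model_chen 0 h (by omega) ∅ k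
  rw [card_empty, zero_add] at hlow
  refine ⟨c / 2 ^ (k + 2), by positivity, fun m B C V U hm ρ hρ hρ1 => ?_⟩
  obtain ⟨N₀, h0⟩ := low_nbhd hk (Bs 0 h ∅ δ) 2 (Bs_sub 0 h ∅ δ) (fun α β : Fin k → ℤ => Ok 0 h ∅ α β) 2 c hc hlow
    m B C 0 V U hm hρ hρ1
  obtain ⟨N₁, h1⟩ := Pool.Agent.H373R2.T7.ev_log' V 1
  refine ⟨N₀ + N₁ + 1, fun N hN s H hH1 hH2 ι _ v hv hvs hE 𝒮 hS => ?_⟩
  have hLV := h1 N (by omega)
  have hN1 : (1 : ℝ) ≤ N := by exact_mod_cast (by omega : 1 ≤ N)
  refine h0 N (by omega) s H hH1 hH2 ι v (fun i j => ?_) hvs hE 𝒮 (fun q hq hcon => hS q hq fun b hb hu => ?_)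
  · have := hv i j
    rw [abs_le]
    constructor
    · have : (0 : ℤ) ≤ B * N := by positivity
      omega
    · exact this.2
  · refine count_of (D := 0) (by simp) (fun i => ?_) (hcon b hb) hu
    have h2 := hb i
    have h3 := (hv i (q i)).1
    have h3' : (5 : ℝ) * N ≤ v i (q i) := by exact_mod_cast h3
    rw [one_mul] at hLV
    have h4 : √(N : ℝ) ≤ N := by
      rw [Real.sqrt_le_left (by linarith)]
      nlinarith
    have h5 := (abs_le.1 h2).1
    have h6 : (2 : ℝ) * N ≤ b i := by linarith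
    exact_mod_cast h6

theorem unobstructed_one {h n : ℕ} (hh : 2 ∣ h) (h3 : 3 ∣ h ∨ (2 * n) % 3 ≠ h % 3) :
    Unobstructed h (fun _ : Fin 1 => ((2 * n : ℕ) : ℤ)) := by
  intro l hl
  have hl2 := hl.two_le
  by_cases e2 : l = 2
  · subst e2
    refine ⟨1, by omega, by omega, fun _ => ?_⟩
    show ¬ ((2 : ℕ) : ℤ) ∣ ((2 * n : ℕ) : ℤ) - 1
    omega
  by_cases e3 : l = 3
  · subst e3
    by_cases e : 3 ∣ h
    · by_cases e' : (2 * n) % 3 = 1
      · refine ⟨2, by omega, by omega, fun _ => ?_⟩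
        show ¬ ((3 : ℕ) : ℤ) ∣ ((2 * n : ℕ) : ℤ) - 2
        omega
      · refine ⟨1, by omega, by omega, fun _ => ?_⟩
        show ¬ ((3 : ℕ) : ℤ) ∣ ((2 * n : ℕ) : ℤ) - 1
        omega
    · refine ⟨h, by omega, by omega, fun _ => ?_⟩
      show ¬ ((3 : ℕ) : ℤ) ∣ ((2 * n : ℕ) : ℤ) - h
      omega
  have h4 : l ≠ 4 := by
    rintro rfl
    exact absurd hl (by norm_num)
  have h5 : 5 ≤ l := by omega
  have small : ∀ d : ℤ, 0 < d → d < 4 → ¬ (l : ℤ) ∣ d := by
    intro d hd0 hd4 hdv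
    have := Int.le_of_dvd hd0 hdv
    omega
  by_contra hcon
  push Not at hcon
  have key : ∀ r : ℤ, 0 < r → r < 4 → (l : ℤ) ∣ r + h ∨ (l : ℤ) ∣ ((2 * n : ℕ) : ℤ) - r := by
    intro r hr0 hr4
    by_cases e : (l : ℤ) ∣ r + h
    · exact Or.inl e
    · obtain ⟨_, hi⟩ := hcon r (small r hr0 hr4) e
      exact Or.inr hi
  have d1 : ∀ r r' : ℤ, (l : ℤ) ∣ r + h → (l : ℤ) ∣ r' + h → (l : ℤ) ∣ r' - r := by
    intro r r' a b
    have := dvd_sub b a
    have e : r' + h - (r + h) = r' - r := by ring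
    rwa [e] at this
  have d2 : ∀ r r' : ℤ, (l : ℤ) ∣ ((2 * n : ℕ) : ℤ) - r → (l : ℤ) ∣ ((2 * n : ℕ) : ℤ) - r' → (l : ℤ) ∣ r' - r := by
    intro r r' a b
    have := dvd_sub a b
    have e : ((2 * n : ℕ) : ℤ) - r - (((2 * n : ℕ) : ℤ) - r') = r' - r := by ring
    rwa [e] at this
  have n1 := small 1 (by norm_num) (by norm_num)
  have n2 := small 2 (by norm_num) (by norm_num)
  rcases key 1 (by norm_num) (by norm_num) with a1 | a1
  · rcases key 2 (by norm_num) (by norm_num) with a2 | a2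
    · exact n1 (by simpa using d1 1 2 a1 a2)
    · rcases key 3 (by norm_num) (by norm_num) with a3 | a3
      · exact n2 (by simpa using d1 1 3 a1 a3)
      · exact n1 (by simpa using d2 2 3 a2 a3)
  · rcases key 2 (by norm_num) (by norm_num) with a2 | a2
    · rcases key 3 (by norm_num) (by norm_num) with a3 | a3
      · exact n1 (by simpa using d1 2 3 a2 a3)
      · exact n2 (by simpa using d2 1 3 a1 a3)
    · exact n1 (by simpa using d2 1 2 a1 a2)

/-- the even numbers of `[2 N, 2 N + 2 H]` -/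
def evens (N H : ℕ) (_ : Fin 1) (j : Fin (H + 1)) : ℤ := ((2 * (N + (j : ℕ)) : ℕ) : ℤ)

/-- **Theorem.** (1) For every even `h ≥ 2` there is `c > 0` such that for all `ρ > 0` and `U` and all large `N`: for all but
at most `H / log ^ U N` of the `n` of the interval `[N, N + H]` of any length `N ^ (1 / 3 + ρ) ≤ H ≤ N / 10`, the number
`2 n` has at least `c n / log ^ 3 n` partitions `2 n = p + q` into primes with `√(2 n) < p < n` such that `p + h` has at
most two prime factors, all of them `≥ n ^ (1 / 10)`, if `3 ∣ h` or `2 n ≢ h (mod 3)`.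

(2) Let `h ≥ 1` and `k ≥ 1`. There is `c > 0` such that for all `m ≥ 1`, `B`, `C`, `V`, `U` and `ρ > 0`, all large `N`, all lengths
`N ^ (1 / 3 + ρ) ≤ H i ≤ N`, and all finite families `v i` (`i < k`) of integers of the intervals `[s i, s i + H i]`,
`5 N ≤ v i j ≤ B N`, with additive energies `energy m (v i) * H i ≤ log ^ C N * |ι i| ^ (2 m)`, the following holds for all but
at most `(∏ |ι i|) / log ^ U N` of the `q ∈ ∏ ι i`: for ALL vectors `b` with `|b i - v i (q i)| ≤ log ^ V N` for all `i` without a local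
obstruction there are at least `c N / log ^ (k + 2) N` primes `N < p ≤ 2 N` for which `p + h` has at most two prime
factors, all of them `≥ N ^ (1 / 9)`, and all the numbers `b i - p` are primes. -/
theorem result :
    (∀ h : ℕ, 1 ≤ h → 2 ∣ h → ∃ c : ℝ, 0 < c ∧ ∀ (U : ℕ) (ρ : ℝ), 0 < ρ → ∃ N₀ : ℕ, ∀ N : ℕ, N₀ ≤ N →
      ∀ H : ℕ, (N : ℝ) ^ (1 / 3 + ρ) ≤ H → 10 * H ≤ N →
      (Nat.card {n : ℕ // (N ≤ n ∧ n ≤ N + H) ∧ (3 ∣ h ∨ (2 * n) % 3 ≠ h % 3) ∧
        ¬ c * (n / Real.log n ^ 3) ≤ (partitions h n : ℝ)} : ℝ) ≤ H / Real.log N ^ U) ∧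
    (∀ h k : ℕ, 1 ≤ h → 1 ≤ k → ∃ c : ℝ, 0 < c ∧ ∀ (m B C V U : ℕ) (ρ : ℝ), 1 ≤ m → 0 < ρ →
      ∃ N₀ : ℕ, ∀ N : ℕ, N₀ ≤ N → ∀ (s : Fin k → ℤ) (H : Fin k → ℕ), (∀ i, (N : ℝ) ^ (1 / 3 + ρ) ≤ H i) → (∀ i, H i ≤ N) →
      ∀ (ι : Fin k → Type) [∀ i, Fintype (ι i)] (v : ∀ i, ι i → ℤ),
      (∀ i j, 5 * (N : ℤ) ≤ v i j ∧ v i j ≤ B * N) → (∀ i j, s i ≤ v i j ∧ v i j ≤ s i + H i) →
      (∀ i, (energy m (v i) : ℝ) * H i ≤ Real.log N ^ C * (Fintype.card (ι i) : ℝ) ^ (2 * m)) →
      (Nat.card {q : ∀ i, ι i // ¬ ∀ b : Fin k → ℤ, (∀ i, |(b i : ℝ) - v i (q i)| ≤ Real.log N ^ V) →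
        Unobstructed h b → c * (N / Real.log N ^ (k + 2)) ≤ (count h N b : ℝ)} : ℝ) ≤
        (∏ i, (Fintype.card (ι i) : ℝ)) / Real.log N ^ U) := by
  classical
  have part2 : ∀ h k : ℕ, 1 ≤ h → 1 ≤ k → ∃ c : ℝ, 0 < c ∧ ∀ (m B C V U : ℕ) (ρ : ℝ), 1 ≤ m → 0 < ρ →
      ∃ N₀ : ℕ, ∀ N : ℕ, N₀ ≤ N → ∀ (s : Fin k → ℤ) (H : Fin k → ℕ), (∀ i, (N : ℝ) ^ (1 / 3 + ρ) ≤ H i) → (∀ i, H i ≤ N) →
      ∀ (ι : Fin k → Type) [∀ i, Fintype (ι i)] (v : ∀ i, ι i → ℤ),
      (∀ i j, 5 * (N : ℤ) ≤ v i j ∧ v i j ≤ B * N) → (∀ i j, s i ≤ v i j ∧ v i j ≤ s i + H i) →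
      (∀ i, (energy m (v i) : ℝ) * H i ≤ Real.log N ^ C * (Fintype.card (ι i) : ℝ) ^ (2 * m)) →
      (Nat.card {q : ∀ i, ι i // ¬ ∀ b : Fin k → ℤ, (∀ i, |(b i : ℝ) - v i (q i)| ≤ Real.log N ^ V) →
        Unobstructed h b → c * (N / Real.log N ^ (k + 2)) ≤ (count h N b : ℝ)} : ℝ) ≤
        (∏ i, (Fintype.card (ι i) : ℝ)) / Real.log N ^ U := by
    intro h k hh hk
    obtain ⟨c, hc, hmain⟩ := main h hh k hk
    refine ⟨c, hc, fun m B C V U ρ hm hρ => ?_⟩
    obtain ⟨N₀, h0⟩ := hmain m B C V U hm (min ρ (1 / 4)) (lt_min hρ (by norm_num)) (min_le_right _ _)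
    refine ⟨N₀ + 1, fun N hN s H h1 h2 ι _ v h3 h4 h5 => ?_⟩
    have hN1 : (1 : ℝ) ≤ N := by exact_mod_cast (by omega : 1 ≤ N)
    rw [Nat.card_eq_fintype_card, Fintype.card_subtype]
    refine h0 N (by omega) s H (fun i => le_trans ?_ (h1 i)) h2 ι v h3 h4 h5 _ (fun q hq => (mem_filter.1 hq).2)
    apply Real.rpow_le_rpow_of_exponent_le hN1
    linarith [min_le_left ρ (1 / 4)]
  refine ⟨?_, part2⟩
  intro h hh h2
  obtain ⟨c, hc, hp2⟩ := part2 h 1 hh le_rfl
  refine ⟨c / 6, by positivity, fun U ρ hρ => ?_⟩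
  obtain ⟨M₀, hM₀⟩ := hp2 1 11 1 0 (U + 1) ρ le_rfl hρ
  obtain ⟨n1, hn1⟩ := Pool.Agent.H373R2.T7.ev_L' (2 ^ (U + 3) + 2)
  obtain ⟨K, hK⟩ := exists_nat_ge (10077696 : ℝ)
  refine ⟨5 * (M₀ + n1 + K + 100), fun N hN H hH1 hH2 => ?_⟩
  obtain ⟨M, hM⟩ : ∃ M : ℕ, M = 2 * N / 5 := ⟨_, rfl⟩
  have hM5 : 5 * M ≤ 2 * N := by omega
  have hM6 : 2 * N ≤ 5 * M + 4 := by omega
  have hMN : N ≤ 5 * M := by omega
  have hM9 : K ≤ M := by omega
  have hM0 : M₀ ≤ M := by omega
  have hMn : n1 ≤ M := by omega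
  have hMle : M ≤ N := by omega
  have hMr : (10077696 : ℝ) ≤ M := hK.trans (by exact_mod_cast hM9)
  have hMpos : (0 : ℝ) < M := by linarith
  have hlogM := hn1 M hMn
  have h2U : (0 : ℝ) < 2 ^ (U + 3) := by positivity
  have hLM : 0 < Real.log M := by linarith
  have hLMN : Real.log M ≤ Real.log N := Real.log_le_log hMpos (by exact_mod_cast hMle)
  have hLN : 0 < Real.log N := by linarith
  have hNr1 : (1 : ℝ) ≤ N := by exact_mod_cast (by omega : 1 ≤ N)
  have hH1' : (1 : ℝ) ≤ H := (Real.one_le_rpow hNr1 (by linarith)).trans hH1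
  have hLN2 : Real.log N ≤ 2 * Real.log M := by
    have e1 : (N : ℝ) ≤ (M : ℝ) ^ 2 := by
      have e2 : (N : ℝ) ≤ 5 * M := by exact_mod_cast hMN
      have e3 : (5 : ℝ) ≤ M := by
        have : (5 : ℕ) ≤ M := by omega
        exact_mod_cast this
      nlinarith
    have e4 := Real.log_le_log (by linarith) e1
    rw [Real.log_pow] at e4
    exact_mod_cast e4
  -- the family of the even numbers
  obtain ⟨v, hv⟩ : ∃ v : Fin 1 → Fin (H + 1) → ℤ, v = evens N H := ⟨_, rfl⟩
  have hvinj : ∀ i, Function.Injective (v i) := by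
    intro i j j' hj
    rw [hv] at hj
    unfold evens at hj
    apply Fin.ext
    omega
  have key := hM₀ M hM0 (fun _ => ((2 * N : ℕ) : ℤ)) (fun _ => 2 * H) (by
      intro _
      calc (M : ℝ) ^ (1 / 3 + ρ) ≤ (N : ℝ) ^ (1 / 3 + ρ) :=
            Real.rpow_le_rpow hMpos.le (by exact_mod_cast hMle) (by positivity)
        _ ≤ H := hH1
        _ ≤ ((2 * H : ℕ) : ℝ) := by push_cast; linarith) (by intro _; omega) (fun _ => Fin (H + 1)) v (by
      intro i j
      rw [hv]
      have := j.2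
      unfold evens
      constructor <;> omega) (by
      intro i j
      rw [hv]
      have := j.2
      unfold evens
      constructor <;> omega) (by
      intro i
      have e1 : energy 1 (v i) = Fintype.card (Fin (H + 1)) := by
        unfold energy
        rw [Nat.card_eq_fintype_card]
        refine Fintype.card_congr ⟨fun x => x.1.1 0, fun i => ⟨(fun _ => i, fun _ => i), rfl⟩, fun x => ?_, fun i => rfl⟩
        obtain ⟨⟨a, b⟩, h⟩ := x
        simp only [Fin.sum_univ_one] at h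
        have h1 := hvinj i h
        apply Subtype.ext
        apply Prod.ext
        · funext j
          simp [Subsingleton.elim j 0]
        · funext j
          simp only
          rw [Subsingleton.elim j 0, ← h1]
      rw [e1, Fintype.card_fin, pow_one]
      push_cast
      have e2 : 2 * (H : ℝ) ≤ Real.log M * (H + 1) := by nlinarith
      calc ((H : ℝ) + 1) * (2 * H) ≤ (H + 1) * (Real.log M * (H + 1)) := by
            apply mul_le_mul_of_nonneg_left e2
            linarith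
        _ = Real.log M * (H + 1) ^ (2 * 1) := by ring)
  -- the exceptional numbers are exceptional members
  have hcard : Nat.card {n : ℕ // (N ≤ n ∧ n ≤ N + H) ∧ (3 ∣ h ∨ (2 * n) % 3 ≠ h % 3) ∧
        ¬ c / 6 * (n / Real.log n ^ 3) ≤ (partitions h n : ℝ)} ≤
      Nat.card {q : ∀ _ : Fin 1, Fin (H + 1) // ¬ ∀ b : Fin 1 → ℤ, (∀ i, |(b i : ℝ) - v i (q i)| ≤ Real.log M ^ 0) →
        Unobstructed h b → c * (M / Real.log M ^ (1 + 2)) ≤ (count h M b : ℝ)} := by
    apply Nat.card_le_card_of_injective (fun n : {n : ℕ // (N ≤ n ∧ n ≤ N + H) ∧ (3 ∣ h ∨ (2 * n) % 3 ≠ h % 3) ∧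
        ¬ c / 6 * (n / Real.log n ^ 3) ≤ (partitions h n : ℝ)} =>
      (⟨fun _ => ⟨n.1 - N, by have := n.2.1; omega⟩, by
        intro hcon
        obtain ⟨n, ⟨hn1, hn2⟩, hn3, hn4⟩ := n
        apply hn4
        simp only at hcon
        have hb : v 0 ⟨n - N, by omega⟩ = ((2 * n : ℕ) : ℤ) := by
          rw [hv]
          unfold evens
          simp only
          omega
        have e1 := hcon (fun _ => ((2 * n : ℕ) : ℤ)) (fun i => by
          rw [Subsingleton.elim i 0, hb]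
          simp) (unobstructed_one h2 hn3)
        have hnM : n ≤ 6 * M := by omega
        have hnM2 : M ≤ n := by omega
        have hnr : (n : ℝ) ≤ 6 * M := by exact_mod_cast hnM
        have hlog : Real.log M ≤ Real.log n := Real.log_le_log hMpos (by exact_mod_cast hnM2)
        have e2 : c / 6 * (n / Real.log n ^ 3) ≤ c * (M / Real.log M ^ (1 + 2)) := by
          have f1 : (n : ℝ) / Real.log n ^ 3 ≤ 6 * M / Real.log M ^ 3 := by
            apply div_le_div₀ (by positivity) hnr (by positivity)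
            exact pow_le_pow_left₀ hLM.le hlog 3
          calc c / 6 * (n / Real.log n ^ 3) ≤ c / 6 * (6 * M / Real.log M ^ 3) := by gcongr
            _ = c * (M / Real.log M ^ (1 + 2)) := by ring
        refine e2.trans (e1.trans ?_)
        have hle : count h M (fun _ : Fin 1 => ((2 * n : ℕ) : ℤ)) ≤ partitions h n := by
          unfold count partitions
          apply card_le_card
          intro p hp
          rw [mem_filter, mem_Ioc] at hp
          rw [mem_filter, mem_Ioo]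
          obtain ⟨⟨g1, g2⟩, g3, g4, g5, g6⟩ := hp
          refine ⟨⟨by omega, by omega⟩, g3, ?_, ?_, g4, fun q hq hd => le_trans ?_ (g5 q hq hd)⟩
          · have := g6 0
            have e : (((2 * n : ℕ) : ℤ) - p).toNat = 2 * n - p := by omega
            rwa [e] at this
          · rw [Real.sqrt_lt' (by exact_mod_cast (by omega : 0 < p))]
            have g7 : (M : ℝ) < p := by exact_mod_cast g1
            nlinarith
          · have g8 : (n : ℝ) ≤ (M : ℝ) ^ (10 / 9 : ℝ) := by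
              have g9 : (M : ℝ) ^ (10 / 9 : ℝ) = M * (M : ℝ) ^ (1 / 9 : ℝ) := by
                rw [show (10 / 9 : ℝ) = 1 + 1 / 9 by norm_num, Real.rpow_add hMpos, Real.rpow_one]
              have g10 : (6 : ℝ) ≤ (M : ℝ) ^ (1 / 9 : ℝ) := by
                calc (6 : ℝ) = ((6 : ℝ) ^ (9 : ℝ)) ^ (1 / 9 : ℝ) := by
                      rw [← Real.rpow_mul (by norm_num)]
                      norm_num
                  _ ≤ (M : ℝ) ^ (1 / 9 : ℝ) := by
                      apply Real.rpow_le_rpow (by positivity) _ (by norm_num)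
                      have e9 : (6 : ℝ) ^ (9 : ℝ) = 10077696 := by norm_num
                      rw [e9]
                      exact hMr
              rw [g9]
              nlinarith
            calc (n : ℝ) ^ (1 / 10 : ℝ) ≤ ((M : ℝ) ^ (10 / 9 : ℝ)) ^ (1 / 10 : ℝ) :=
                  Real.rpow_le_rpow (by positivity) g8 (by norm_num)
              _ = (M : ℝ) ^ (1 / 9 : ℝ) := by
                  rw [← Real.rpow_mul hMpos.le]
                  norm_num
        exact_mod_cast hle⟩ :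
        {q : ∀ _ : Fin 1, Fin (H + 1) // ¬ ∀ b : Fin 1 → ℤ, (∀ i, |(b i : ℝ) - v i (q i)| ≤ Real.log M ^ 0) →
          Unobstructed h b → c * (M / Real.log M ^ (1 + 2)) ≤ (count h M b : ℝ)}))
    intro n n' hnn
    simp only [Subtype.mk.injEq] at hnn
    apply Subtype.ext
    have e1 := congrArg Fin.val (congrFun hnn 0)
    simp only at e1
    have e2 := n.2.1
    have e3 := n'.2.1
    omega
  have hc : (Nat.card {n : ℕ // (N ≤ n ∧ n ≤ N + H) ∧ (3 ∣ h ∨ (2 * n) % 3 ≠ h % 3) ∧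
        ¬ c / 6 * (n / Real.log n ^ 3) ≤ (partitions h n : ℝ)} : ℝ) ≤ ((H : ℝ) + 1) / Real.log M ^ (U + 1) := by
    refine le_trans (by exact_mod_cast hcard) (key.trans (le_of_eq ?_))
    simp only [Fintype.card_fin, univ_unique, prod_singleton]
    push_cast
    rfl
  refine hc.trans ?_
  rw [div_le_div_iff₀ (by positivity) (by positivity)]
  have e5 : Real.log N ^ U ≤ 2 ^ U * Real.log M ^ U := by
    rw [← mul_pow]
    exact pow_le_pow_left₀ hLN.le hLN2 U
  have e6 : (2 : ℝ) * 2 ^ U ≤ Real.log M := by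
    have : (2 : ℝ) ^ (U + 3) = 8 * 2 ^ U := by rw [pow_add]; ring
    have h3 : (0 : ℝ) < 2 ^ U := by positivity
    linarith
  calc ((H : ℝ) + 1) * Real.log N ^ U ≤ (2 * H) * (2 ^ U * Real.log M ^ U) := by
        apply mul_le_mul _ e5 (by positivity) (by positivity)
        linarith
    _ = H * ((2 * 2 ^ U) * Real.log M ^ U) := by ring
    _ ≤ H * (Real.log M * Real.log M ^ U) := by
        apply mul_le_mul_of_nonneg_left _ (by positivity)
        exact mul_le_mul_of_nonneg_right e6 (by positivity)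
    _ = H * Real.log M ^ (U + 1) := by ring

end Pool.Agent.Results.MP_33f996_nt.ChenShortIntervals
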