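import Pool.Agent.KS6_51.INVC.Fam

set_option autoImplicit false

/-!
# Partitions of `2n` into two almost primes, at all coordinates of the points of invariant sets modulo `p`

We consider the partitions `2 n = P + (2 n - P)` with `√(2 n) < P < n`, more precisely with `P` in the interval
`[m, m + p)`, where `√(2 n) ≤ m`, `m + p ≤ n`, and `p` is a prime with `n ≤ p^B` (so that the interval can be as short
as any fixed power of `n`).  Let `Ω` be an ARBITRARY set of vectors modulo `p` with `r` coordinates which is mapped onto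
itself by some affine maps, such that every nonzero linear functional has at least `T` images under (products of) the
linear parts.  If `(∏ N_j)² |Ω| T ≥ p^(3r + ε)` then the number of the vectors in `Ω` with the least residues `x_j` of
all `r` coordinates in given intervals `[A_j, A_j + N_j)`, and such that for each of the `r` numbers `P = m + x_j` both
`P` and `2 n - P` have at most `R` prime factors, all larger than `p^κ`, is at least a constant times
`(∏ N_j) |Ω| p^(-r) (log p)^(-2r)`, for EVERY large `n`.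

Three cases: affine groups, in the form above; sets of elements of the field with `p^r` elements which are closed under
the multiplication with a subgroup `U` of its multiplicative group, coordinates with respect to any basis, `T = |U|`;
sets of `d`-dimensional arrays (matrices, tensors) closed under the addition of multiples of slices to slices in the
directions of a set `D`, `T = p^(1 + ∑_{j ∈ D} (n_j - 1))`.

Proof (`Pool.Agent.KS6_51.INV`, `Pool.Agent.KS6_51.INVC`).  The modulus of the Fourier transform of `Ω` is constant on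
the orbits of the functionals, and Parseval's identity bounds it.  The rest is the fundamental lemma of the sieve for
vectors of integers in the form of the starting library (`Pool.Agent.Q46.SL`, `Pool.Agent.Q20.RG.primeC`).
-/

namespace Pool.Agent.Results.MP_33f996_nt.InvariantPartitions

open Finset Matrix Module Polynomial
open Pool.Agent.Q46.SL hiding Almost
open Pool.Agent.KS6_51.INVC hiding Count

/-- `n` is not zero and has at most `R` prime factors (counted with multiplicity), all larger than `z` -/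
def Almost (z : ℝ) (R : ℕ) (n : ℤ) : Prop :=
  n ≠ 0 ∧ n.natAbs.primeFactorsList.length ≤ R ∧ ∀ q : ℕ, q.Prime → (q : ℤ) ∣ n → z < q

/-- `P = m + x` is between `√(2 n)` and `n`, and `P` and `2 n - P` have at most `R` prime factors, all larger than `z` -/
def Partition (n m : ℕ) (z : ℝ) (R : ℕ) (x : ℕ) : Prop :=
  (Real.sqrt (2 * n) < m + x ∧ m + x < n) ∧ Almost z R ((m : ℤ) + x) ∧ Almost z R (2 * (n : ℤ) - m - x)

/-- the number of the `v` in `Ω` all of whose coordinates `c v j` have their least residue in `[A j, A j + N j)` and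
with the property `P` -/
noncomputable def Count {V J : Type} {p : ℕ} (Ω : Finset V) (c : V → J → ZMod p) (A N : J → ℕ) (P : ℕ → Prop) : ℕ :=
  {v : V | v ∈ Ω ∧ ∀ j, (A j ≤ (c v j).val ∧ (c v j).val < A j + N j) ∧ P (c v j).val}.ncard

/-- the intervals `[A j, A j + N j)` are in `[0, p)` and have length at least `p ^ ε` -/
def Boxes {J : Type} (ε : ℝ) (p : ℕ) (A N : J → ℕ) : Prop := ∀ j, A j + N j ≤ p ∧ (p : ℝ) ^ ε ≤ N j

/-- every set of row vectors which contains a nonzero vector and is closed under `h ↦ h M`, `(M, b) ∈ Γ`, has at least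
`T` elements -/
def LargeOrbits {p r : ℕ} (Γ : Set (Matrix (Fin r) (Fin r) (ZMod p) × (Fin r → ZMod p))) (T : ℝ) : Prop :=
  ∀ H : Finset (Fin r → ZMod p), (∃ h ∈ H, h ≠ 0) → (∀ γ ∈ Γ, ∀ h ∈ H, h ᵥ* γ.1 ∈ H) → T ≤ H.card

/-- the array `X` with `s` times the slice `i j = b` added to the slice `i j = a` -/
def addSlice {p k : ℕ} {n : Fin k → ℕ} (j : Fin k) (a b : Fin (n j)) (s : ZMod p)
    (X : (∀ j, Fin (n j)) → ZMod p) : (∀ j, Fin (n j)) → ZMod p :=
  fun i => if i j = a then X i + s * X (Function.update i j b) else X i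

lemma adm (c0 c1 : ℤ) (m : ℤ) (h0 : Odd (c0 + m)) (h1 : Odd (c1 - m)) (q : ℕ) (hq : q.Prime) :
    ∃ a < q, ¬ (q : ℤ) ∣ c0 + (a : ℤ) ∧ ¬ (q : ℤ) ∣ c1 - (a : ℤ) := by
  rcases hq.eq_two_or_odd' with rfl | hodd
  · obtain ⟨a, ha, hm⟩ : ∃ a : ℕ, a < 2 ∧ Even (m - a) := by
      rcases Int.even_or_odd m with h | h
      · exact ⟨0, by norm_num, by simpa using h⟩
      · exact ⟨1, by norm_num, by
          obtain ⟨t, ht⟩ := h
          exact ⟨t, by push_cast; omega⟩⟩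
    refine ⟨a, ha, ?_, ?_⟩
    · intro hd
      obtain ⟨t, ht⟩ := hm
      obtain ⟨s, hs⟩ := h0
      obtain ⟨u, hu⟩ := hd
      push_cast at hu
      omega
    · intro hd
      obtain ⟨t, ht⟩ := hm
      obtain ⟨s, hs⟩ := h1
      obtain ⟨u, hu⟩ := hd
      push_cast at hu
      omega
  · have h3 : 3 ≤ q := by
      have := hq.two_le
      have : q ≠ 2 := by rintro rfl; exact absurd hodd (by decide)
      omega
    have hd1 : ¬ (q : ℤ) ∣ 1 := by
      intro h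
      have := Int.le_of_dvd (by norm_num) h
      omega
    have hd2 : ¬ (q : ℤ) ∣ 2 := by
      intro h
      have := Int.le_of_dvd (by norm_num) h
      omega
    by_contra hcon
    push Not at hcon
    have g0 := hcon 0 (by omega)
    have g1 := hcon 1 (by omega)
    have g2 := hcon 2 (by omega)
    push_cast at g0 g1 g2
    by_cases a0 : (q : ℤ) ∣ c0 + 0
    · have b1 : ¬ (q : ℤ) ∣ c0 + 1 := fun h => hd1 (by have := dvd_sub h a0; ring_nf at this; simpa using this)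
      have b2 : ¬ (q : ℤ) ∣ c0 + 2 := fun h => hd2 (by have := dvd_sub h a0; ring_nf at this; simpa using this)
      exact hd1 (by have := dvd_sub (g1 b1) (g2 b2); ring_nf at this; simpa using this)
    · have e0 := g0 a0
      by_cases a1 : (q : ℤ) ∣ c0 + 1
      · have b2 : ¬ (q : ℤ) ∣ c0 + 2 := fun h => hd1 (by have := dvd_sub h a1; ring_nf at this; simpa using this)
        exact hd2 (by have := dvd_sub e0 (g2 b2); ring_nf at this; simpa using this)
      · exact hd1 (by have := dvd_sub e0 (g1 a1); ring_nf at this; simpa using this)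

/-- the two polynomials -/
noncomputable def sys (n m : ℕ) : PE 2 0 2 where
  f := ![C (m : ℤ) + X, C (2 * (n : ℤ) - m) - X]
  E := fun _ => ∅
  deg := by
    rw [Fin.sum_univ_two]
    simp only [Matrix.cons_val]
    have d0 : (C (m : ℤ) + X : ℤ[X]).natDegree ≤ 1 := by compute_degree
    have d1 : (C (2 * (n : ℤ) - m) - X : ℤ[X]).natDegree ≤ 1 := by compute_degree
    omega
  adm := by
    intro q hq
    obtain ⟨a, ha, h1, h2⟩ := adm (m : ℤ) (2 * (n : ℤ) - m) (m + 1) ⟨m, by ring⟩ ⟨n - m - 1, by ring⟩ q hq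
    refine ⟨by simp, a, ha, by simp, fun j => ?_⟩
    fin_cases j
    · simpa using h1
    · simpa using h2

lemma part_of (B p n m : ℕ) (hp2 : 2 ≤ p) (hm : Real.sqrt (2 * n) ≤ m) (hmp : m + p ≤ n)
    (hn : (n : ℝ) ≤ (p : ℝ) ^ B) (κ : ℝ) (x : ℕ) (hx : x < p) (h : Near (B + 4) (sys n m) κ p x) :
    Partition n m ((p : ℝ) ^ κ) ⌊(((B + 4 : ℕ) : ℝ) + ((2 : ℕ) : ℝ) + 1) / κ⌋₊ x := by
  obtain ⟨h0, h12⟩ := h
  have hp2' : (2 : ℝ) ≤ p := by exact_mod_cast hp2
  have hP1 : (1 : ℝ) ≤ (p : ℝ) ^ B := one_le_pow₀ (by linarith)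
  have hm0 : (0 : ℝ) ≤ m := Nat.cast_nonneg m
  have hmn : (m : ℝ) ≤ n := by exact_mod_cast (by omega : m ≤ n)
  have hbig : 2 * (p : ℝ) ^ B + 1 ≤ (p : ℝ) ^ (B + 4) := by
    rw [pow_add]
    have e1 : (16 : ℝ) ≤ (p : ℝ) ^ 4 := by
      calc (16 : ℝ) = 2 ^ 4 := by norm_num
        _ ≤ _ := pow_le_pow_left₀ (by norm_num) hp2' 4
    nlinarith
  obtain ⟨h1, -⟩ := h12 (by
    intro j
    fin_cases j
    · refine cb_mono (cb_add (cb_C _) cb_X) ?_
      push_cast
      rw [abs_of_nonneg (by positivity)]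
      linarith
    · refine cb_mono (cb_sub (cb_C _) cb_X) ?_
      push_cast
      rw [abs_of_nonneg (by linarith)]
      linarith) (by exact_mod_cast hx.le)
  have hx0 : (0 : ℤ) < x := by exact_mod_cast h0
  have hx0' : (0 : ℝ) < x := by exact_mod_cast hx0
  refine ⟨⟨by linarith, by omega⟩, ?_, ?_⟩
  · have := h1 0
    simpa [sys, Almost, Pool.Agent.Q46.SL.Almost] using this
  · have := h1 1
    simpa [sys, Almost, Pool.Agent.Q46.SL.Almost] using this

/-- **Partitions of `2 n₀` into almost primes at invariant sets.**  `p` is a large prime, `√(2 n₀) ≤ m`, `m + p ≤ n₀` and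
`n₀ ≤ p ^ B`.

1. Sets `Ω` of vectors modulo `p` which are mapped onto themselves by the affine maps `v ↦ M v + b`, `(M, b) ∈ Γ`.

2. Sets `Ω` of elements of a field of degree `r` over the prime field, closed under the multiplication with the
elements of a subgroup `U` of the multiplicative group; coordinates with respect to a basis.

3. Sets `Ω` of arrays of the format `n 0 × ... × n (d - 1)`, closed under the addition of multiples of slices to other
slices in the directions of `D`. -/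
theorem result (B : ℕ) :
    (∀ r : ℕ, ∀ ε : ℝ, 0 < ε → ε ≤ 1 → ∃ κ : ℝ, 0 < κ ∧ ∃ cc : ℝ, 0 < cc ∧ ∃ R p₀ : ℕ,
      ∀ p : ℕ, p₀ ≤ p → ∀ [Fact p.Prime], ∀ n₀ m : ℕ, Real.sqrt (2 * n₀) ≤ m → m + p ≤ n₀ → (n₀ : ℝ) ≤ (p : ℝ) ^ B →
      ∀ (Γ : Set (Matrix (Fin r) (Fin r) (ZMod p) × (Fin r → ZMod p))) (T : ℝ), LargeOrbits Γ T →
      ∀ Ω : Finset (Fin r → ZMod p), (∀ γ ∈ Γ, Set.BijOn (fun v => γ.1 *ᵥ v + γ.2) Ω Ω) →
      ∀ A N : Fin r → ℕ, Boxes ε p A N →
        (p : ℝ) ^ (3 * (r : ℝ) + ε) ≤ (∏ j, (N j : ℝ)) ^ 2 * Ω.card * T →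
        cc * ((∏ j, (N j : ℝ)) * Ω.card / (p : ℝ) ^ r) / Real.log p ^ (2 * r) ≤
          Count Ω (fun v => v) A N (Partition n₀ m ((p : ℝ) ^ κ) R)) ∧
    (∀ r : ℕ, ∀ ε : ℝ, 0 < ε → ε ≤ 1 → ∃ κ : ℝ, 0 < κ ∧ ∃ cc : ℝ, 0 < cc ∧ ∃ R p₀ : ℕ,
      ∀ p : ℕ, p₀ ≤ p → ∀ [Fact p.Prime], ∀ n₀ m : ℕ, Real.sqrt (2 * n₀) ≤ m → m + p ≤ n₀ → (n₀ : ℝ) ≤ (p : ℝ) ^ B →
      ∀ (F : Type) [Field F] [Algebra (ZMod p) F] (b : Basis (Fin r) (ZMod p) F) (U : Subgroup Fˣ) (Ω : Finset F),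
      (∀ u ∈ U, ∀ y ∈ Ω, (u : F) * y ∈ Ω) →
      ∀ A N : Fin r → ℕ, Boxes ε p A N →
        (p : ℝ) ^ (3 * (r : ℝ) + ε) ≤ (∏ j, (N j : ℝ)) ^ 2 * Ω.card * Nat.card U →
        cc * ((∏ j, (N j : ℝ)) * Ω.card / (p : ℝ) ^ r) / Real.log p ^ (2 * r) ≤
          Count Ω (fun y j => b.repr y j) A N (Partition n₀ m ((p : ℝ) ^ κ) R)) ∧
    (∀ (d : ℕ) (n : Fin d → ℕ), (∀ j, 1 ≤ n j) → ∀ D : Finset (Fin d), (∃ j ∈ D, 2 ≤ n j) →
      ∀ ε : ℝ, 0 < ε → ε ≤ 1 → ∃ κ : ℝ, 0 < κ ∧ ∃ cc : ℝ, 0 < cc ∧ ∃ R p₀ : ℕ,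
      ∀ p : ℕ, p₀ ≤ p → ∀ [Fact p.Prime], ∀ n₀ m : ℕ, Real.sqrt (2 * n₀) ≤ m → m + p ≤ n₀ → (n₀ : ℝ) ≤ (p : ℝ) ^ B →
      ∀ Ω : Finset ((∀ j, Fin (n j)) → ZMod p),
      (∀ j ∈ D, ∀ a b : Fin (n j), a ≠ b → ∀ s : ZMod p, ∀ X ∈ Ω, addSlice j a b s X ∈ Ω) →
      ∀ A N : (∀ j, Fin (n j)) → ℕ, Boxes ε p A N →
        (p : ℝ) ^ (3 * (∏ j, (n j : ℝ)) - ∑ j ∈ D, ((n j : ℝ) - 1) - 1 + ε) ≤ (∏ i, (N i : ℝ)) ^ 2 * Ω.card →
        cc * ((∏ i, (N i : ℝ)) * Ω.card / (p : ℝ) ^ (∏ j, n j)) / Real.log p ^ (2 * ∏ j, n j) ≤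
          Count Ω (fun X => X) A N (Partition n₀ m ((p : ℝ) ^ κ) R)) := by
  have hlg : ∀ (a p s : ℕ) (t : ℝ), t * lg 2 a p ≤ (s : ℝ) → t / Real.log p ^ (2 * a) ≤ s := by
    intro a p s t h
    rwa [lg, mul_one_div] at h
  refine ⟨?_, ?_, ?_⟩
  · intro r ε h0 h1
    obtain ⟨κ, hκ, cc, hcc, p₀, h⟩ := famA (Near (B + 4) : PE 2 0 2 → ℝ → ℝ → ℤ → Prop)
      (lg (0 + 2)) (fun r => csN 2 0 2 (B + 4) r) r ε h0 h1
    refine ⟨κ, hκ, cc, hcc, ⌊(((B + 4 : ℕ) : ℝ) + ((2 : ℕ) : ℝ) + 1) / κ⌋₊, max p₀ 2, ?_⟩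
    intro p hp _ n₀ m hm hmp hn Γ T hT Ω hΩ A N hAN hW
    exact hlg _ _ _ _ (h p ((le_max_left _ _).trans hp) (sys n₀ m) _
      (fun x hx hnear => part_of B p n₀ m ((le_max_right _ _).trans hp) hm hmp hn κ x hx hnear) Γ T hT Ω hΩ A N hAN hW)
  · intro r ε h0 h1
    obtain ⟨κ, hκ, cc, hcc, p₀, h⟩ := famF (Near (B + 4) : PE 2 0 2 → ℝ → ℝ → ℤ → Prop)
      (lg (0 + 2)) (fun r => csN 2 0 2 (B + 4) r) r ε h0 h1
    refine ⟨κ, hκ, cc, hcc, ⌊(((B + 4 : ℕ) : ℝ) + ((2 : ℕ) : ℝ) + 1) / κ⌋₊, max p₀ 2, ?_⟩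
    intro p hp _ n₀ m hm hmp hn F _ _ b U Ω hΩ A N hAN hW
    exact hlg _ _ _ _ (h p ((le_max_left _ _).trans hp) (sys n₀ m) _
      (fun x hx hnear => part_of B p n₀ m ((le_max_right _ _).trans hp) hm hmp hn κ x hx hnear) F b U Ω hΩ A N hAN hW)
  · intro d n hn D hD ε h0 h1
    obtain ⟨κ, hκ, cc, hcc, p₀, h⟩ := famT (Near (B + 4) : PE 2 0 2 → ℝ → ℝ → ℤ → Prop)
      (lg (0 + 2)) (fun r => csN 2 0 2 (B + 4) r) d n hn D hD ε h0 h1
    refine ⟨κ, hκ, cc, hcc, ⌊(((B + 4 : ℕ) : ℝ) + ((2 : ℕ) : ℝ) + 1) / κ⌋₊, max p₀ 2, ?_⟩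
    intro p hp _ n₀ m hm hmp hn Ω hΩ A N hAN hW
    exact hlg _ _ _ _ (h p ((le_max_left _ _).trans hp) (sys n₀ m) _
      (fun x hx hnear => part_of B p n₀ m ((le_max_right _ _).trans hp) hm hmp hn κ x hx hnear) Ω hΩ A N hAN hW)

end Pool.Agent.Results.MP_33f996_nt.InvariantPartitions
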