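import Pool.Agent.KS6_52.SQ.Crit

set_option autoImplicit false

/-!
# Partitions of `2n` into two almost primes, at `a u` and `c / u`, or at Fibonacci numbers modulo `p`

We consider the partitions `2 n = P + (2 n - P)` with `√(2 n) < P < n`, more precisely with `P` in the interval
`[m, m + p)`, where `√(2 n) ≤ m`, `m + p ≤ n`, and `p` is a prime with `n ≤ p^B` (so that the interval can be as short
as any fixed power of `n`, anywhere between `√(2 n)` and `n`).  The residue `x` is good if for `P = m + x` both `P` and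
`2 n - P` have at most `R` prime factors, all larger than `p^κ`.  For EVERY large `n` the pairs of residues `x_0`, `x_1`
below are both good and in given intervals `[A_j, A_j + N_j)` of `[0, p)`, for at least a constant times
`N_0 N_1 t p^(-2) (log p)^(-4)` of

1. the points `x_k`, `k < t`, of the orbit `x_(k+1) = M x_k` of a matrix `M` of determinant one and order `t` modulo `p`;
2. the pairs `(a u, c / u)`, `u` in a subgroup of order `t` of the multiplicative group modulo `p`;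
3. the pairs `(F_n, F_(n+1))` of consecutive Fibonacci numbers modulo `p`, `t` their period,

as soon as `(N_0 N_1)⁴ t³ ≥ p^(10 + ε)`; for whole intervals this is `t ≥ p^(2/3 + ε')`.  These follow from a general
theorem: if `Ω` is mapped onto itself by affine maps such that every nonzero functional has at least `T` images under
products of the linear parts, and `E` is the additive energy of `Ω`, the condition is
`(∏ N_j)⁴ |Ω|⁴ T ≥ p^(5 r + ε) E`.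

Proof (`Pool.Agent.KS6_52.RG`, `Pool.Agent.KS6_52.SQ`): the orbits lie on nondegenerate conics and have energy at most
`3 t²`; the modulus of the Fourier transform is constant on the orbits of the functionals, and the fourth moment bounds
it.  The rest is the fundamental lemma of the sieve for vectors of integers in the form of the starting library
(`Pool.Agent.Q46.SL`, `Pool.Agent.Q20.RG.primeC`).  The lemmas on the two polynomials are those of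
`MP_33f996_nt.InvariantPartitions`.
-/

namespace Pool.Agent.Results.MP_33f996_nt.PartitionsAtInverses

open Finset Matrix Polynomial
open Pool.Agent.Q46.SL hiding Almost

/-- `n` is not zero and has at most `R` prime factors (counted with multiplicity), all larger than `z` -/
def Almost (z : ℝ) (R : ℕ) (n : ℤ) : Prop :=
  n ≠ 0 ∧ n.natAbs.primeFactorsList.length ≤ R ∧ ∀ q : ℕ, q.Prime → (q : ℤ) ∣ n → z < q

/-- `P = m + x` is between `√(2 n)` and `n`, and `P` and `2 n - P` have at most `R` prime factors, all larger than `z` -/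
def Partition (n m : ℕ) (z : ℝ) (R : ℕ) (x : ℕ) : Prop :=
  (Real.sqrt (2 * n) < m + x ∧ m + x < n) ∧ Almost z R ((m : ℤ) + x) ∧ Almost z R (2 * (n : ℤ) - m - x)

/-- the intervals `[A j, A j + N j)` are in `[0, p)` and have length at least `p ^ ε` -/
def Boxes {r : ℕ} (ε : ℝ) (p : ℕ) (A N : Fin r → ℕ) : Prop := ∀ j, A j + N j ≤ p ∧ (p : ℝ) ^ ε ≤ N j

/-- `n` is in the `j`-th interval and has the property `P` -/
def Hit {r : ℕ} (P : ℕ → Prop) (A N : Fin r → ℕ) (j : Fin r) (n : ℕ) : Prop :=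
  (A j ≤ n ∧ n < A j + N j) ∧ P n

/-- every set of row vectors which contains a nonzero vector and is closed under `h ↦ h M`, `(M, b) ∈ Γ`, has at least
`T` elements -/
def LargeOrbits {p r : ℕ} (Γ : Set (Matrix (Fin r) (Fin r) (ZMod p) × (Fin r → ZMod p))) (T : ℝ) : Prop :=
  ∀ H : Finset (Fin r → ZMod p), (∃ h ∈ H, h ≠ 0) → (∀ γ ∈ Γ, ∀ h ∈ H, h ᵥ* γ.1 ∈ H) → T ≤ H.card

/-- the additive energy: the number of `(u, v, w, z)` in `Ω⁴` with `u + v = w + z` -/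
def energy {p r : ℕ} (Ω : Finset (Fin r → ZMod p)) : ℕ :=
  (((Ω ×ˢ Ω) ×ˢ (Ω ×ˢ Ω)).filter fun q => q.1.1 + q.1.2 = q.2.1 + q.2.2).card

lemma adm (c0 c1 : ℤ) (m : ℤ) (h0 : Odd (c0 + m)) (h1 : Odd (c1 - m)) (q : ℕ) (hq : q.Prime) :
    ∃ a < q, ¬ (q : ℤ) ∣ c0 + (a : ℤ) ∧ ¬ (q : ℤ) ∣ c1 - (a : ℤ) := by
  rcases hq.eq_two_or_odd' with rfl | hodd
  · obtain ⟨a, ha, hm⟩ : ∃ a : ℕ, a < 2 ∧ Even (m - a) := by
      rcases Int.even_or_odd m with h | h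
      · exact ⟨0, by norm_num, by simpa using h⟩
      · exact ⟨1, by norm_num, by
          obtain ⟨t, ht⟩ := h
          exact ⟨t, by push_cast; omega⟩⟩
    refine ⟨a, ha, ?_, ?_⟩
    · intro hd
      obtain ⟨t, ht⟩ := hm
      obtain ⟨s, hs⟩ := h0
      obtain ⟨u, hu⟩ := hd
      push_cast at hu
      omega
    · intro hd
      obtain ⟨t, ht⟩ := hm
      obtain ⟨s, hs⟩ := h1
      obtain ⟨u, hu⟩ := hd
      push_cast at hu
      omega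
  · have h3 : 3 ≤ q := by
      have := hq.two_le
      have : q ≠ 2 := by rintro rfl; exact absurd hodd (by decide)
      omega
    have hd1 : ¬ (q : ℤ) ∣ 1 := by
      intro h
      have := Int.le_of_dvd (by norm_num) h
      omega
    have hd2 : ¬ (q : ℤ) ∣ 2 := by
      intro h
      have := Int.le_of_dvd (by norm_num) h
      omega
    by_contra hcon
    push Not at hcon
    have g0 := hcon 0 (by omega)
    have g1 := hcon 1 (by omega)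
    have g2 := hcon 2 (by omega)
    push_cast at g0 g1 g2
    by_cases a0 : (q : ℤ) ∣ c0 + 0
    · have b1 : ¬ (q : ℤ) ∣ c0 + 1 := fun h => hd1 (by have := dvd_sub h a0; ring_nf at this; simpa using this)
      have b2 : ¬ (q : ℤ) ∣ c0 + 2 := fun h => hd2 (by have := dvd_sub h a0; ring_nf at this; simpa using this)
      exact hd1 (by have := dvd_sub (g1 b1) (g2 b2); ring_nf at this; simpa using this)
    · have e0 := g0 a0
      by_cases a1 : (q : ℤ) ∣ c0 + 1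
      · have b2 : ¬ (q : ℤ) ∣ c0 + 2 := fun h => hd1 (by have := dvd_sub h a1; ring_nf at this; simpa using this)
        exact hd2 (by have := dvd_sub e0 (g2 b2); ring_nf at this; simpa using this)
      · exact hd1 (by have := dvd_sub e0 (g1 a1); ring_nf at this; simpa using this)

/-- the two polynomials -/
noncomputable def sys (n m : ℕ) : PE 2 0 2 where
  f := ![C (m : ℤ) + X, C (2 * (n : ℤ) - m) - X]
  E := fun _ => ∅
  deg := by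
    rw [Fin.sum_univ_two]
    simp only [Matrix.cons_val]
    have d0 : (C (m : ℤ) + X : ℤ[X]).natDegree ≤ 1 := by compute_degree
    have d1 : (C (2 * (n : ℤ) - m) - X : ℤ[X]).natDegree ≤ 1 := by compute_degree
    omega
  adm := by
    intro q hq
    obtain ⟨a, ha, h1, h2⟩ := adm (m : ℤ) (2 * (n : ℤ) - m) (m + 1) ⟨m, by ring⟩ ⟨n - m - 1, by ring⟩ q hq
    refine ⟨by simp, a, ha, by simp, fun j => ?_⟩
    fin_cases j
    · simpa using h1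
    · simpa using h2

lemma part_of (B p n m : ℕ) (hp2 : 2 ≤ p) (hm : Real.sqrt (2 * n) ≤ m) (hmp : m + p ≤ n)
    (hn : (n : ℝ) ≤ (p : ℝ) ^ B) (κ : ℝ) (x : ℕ) (hx : x < p) (h : Near (B + 4) (sys n m) κ p x) :
    Partition n m ((p : ℝ) ^ κ) ⌊(((B + 4 : ℕ) : ℝ) + ((2 : ℕ) : ℝ) + 1) / κ⌋₊ x := by
  obtain ⟨h0, h12⟩ := h
  have hp2' : (2 : ℝ) ≤ p := by exact_mod_cast hp2
  have hP1 : (1 : ℝ) ≤ (p : ℝ) ^ B := one_le_pow₀ (by linarith)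
  have hm0 : (0 : ℝ) ≤ m := Nat.cast_nonneg m
  have hmn : (m : ℝ) ≤ n := by exact_mod_cast (by omega : m ≤ n)
  have hbig : 2 * (p : ℝ) ^ B + 1 ≤ (p : ℝ) ^ (B + 4) := by
    rw [pow_add]
    have e1 : (16 : ℝ) ≤ (p : ℝ) ^ 4 := by
      calc (16 : ℝ) = 2 ^ 4 := by norm_num
        _ ≤ _ := pow_le_pow_left₀ (by norm_num) hp2' 4
    nlinarith
  obtain ⟨h1, -⟩ := h12 (by
    intro j
    fin_cases j
    · refine cb_mono (cb_add (cb_C _) cb_X) ?_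
      push_cast
      rw [abs_of_nonneg (by positivity)]
      linarith
    · refine cb_mono (cb_sub (cb_C _) cb_X) ?_
      push_cast
      rw [abs_of_nonneg (by linarith)]
      linarith) (by exact_mod_cast hx.le)
  have hx0 : (0 : ℤ) < x := by exact_mod_cast h0
  have hx0' : (0 : ℝ) < x := by exact_mod_cast hx0
  refine ⟨⟨by linarith, by omega⟩, ?_, ?_⟩
  · have := h1 0
    simpa [sys, Almost, Pool.Agent.Q46.SL.Almost] using this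
  · have := h1 1
    simpa [sys, Almost, Pool.Agent.Q46.SL.Almost] using this

/-- **Partitions of `2 n₀` into almost primes at orbits of matrices of determinant one, elements of subgroups and their
inverses, and consecutive Fibonacci numbers.**  `p` is a large prime, `√(2 n₀) ≤ m`, `m + p ≤ n₀` and `n₀ ≤ p ^ B`. -/
theorem result (B : ℕ) :
    (∀ r : ℕ, ∀ ε : ℝ, 0 < ε → ε ≤ 1 → ∃ κ : ℝ, 0 < κ ∧ ∃ cc : ℝ, 0 < cc ∧ ∃ R p₀ : ℕ,
      ∀ p : ℕ, p₀ ≤ p → ∀ [Fact p.Prime], ∀ n₀ m : ℕ, Real.sqrt (2 * n₀) ≤ m → m + p ≤ n₀ → (n₀ : ℝ) ≤ (p : ℝ) ^ B →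
      ∀ (Γ : Set (Matrix (Fin r) (Fin r) (ZMod p) × (Fin r → ZMod p))) (T : ℝ), LargeOrbits Γ T →
      ∀ Ω : Finset (Fin r → ZMod p), (∀ γ ∈ Γ, Set.BijOn (fun v => γ.1 *ᵥ v + γ.2) Ω Ω) →
      ∀ A N : Fin r → ℕ, Boxes ε p A N →
        (p : ℝ) ^ (5 * (r : ℝ) + ε) * energy Ω ≤ ((∏ j, (N j : ℝ)) * Ω.card) ^ 4 * T →
        ∃ G : Finset (Fin r → ZMod p),
          cc * ((∏ j, (N j : ℝ)) * Ω.card / (p : ℝ) ^ r) / Real.log p ^ (2 * r) ≤ G.card ∧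
          ∀ v ∈ G, v ∈ Ω ∧ ∀ j, Hit (Partition n₀ m ((p : ℝ) ^ κ) R) A N j (v j).val) ∧
    (∀ ε : ℝ, 0 < ε → ε ≤ 1 → ∃ κ : ℝ, 0 < κ ∧ ∃ cc : ℝ, 0 < cc ∧ ∃ R p₀ : ℕ,
      ∀ p : ℕ, p₀ ≤ p → ∀ [Fact p.Prime], ∀ n₀ m : ℕ, Real.sqrt (2 * n₀) ≤ m → m + p ≤ n₀ → (n₀ : ℝ) ≤ (p : ℝ) ^ B →
      ∀ M : Matrix (Fin 2) (Fin 2) (ZMod p), M.det = 1 → M.trace ^ 2 ≠ 4 →
      ∀ x : ℕ → Fin 2 → ZMod p, (∀ k, x (k + 1) = M *ᵥ x k) → x 0 0 * x 1 1 ≠ x 0 1 * x 1 0 →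
      ∀ A N : Fin 2 → ℕ, Boxes ε p A N →
        (p : ℝ) ^ (10 + ε) ≤ (∏ j, (N j : ℝ)) ^ 4 * (orderOf M : ℝ) ^ 3 →
        ∃ G : Finset ℕ, cc * ((∏ j, (N j : ℝ)) * orderOf M / (p : ℝ) ^ 2) / Real.log p ^ 4 ≤ G.card ∧
          ∀ i ∈ G, i < orderOf M ∧ ∀ j, Hit (Partition n₀ m ((p : ℝ) ^ κ) R) A N j (x i j).val) ∧
    (∀ ε : ℝ, 0 < ε → ε ≤ 1 → ∃ κ : ℝ, 0 < κ ∧ ∃ cc : ℝ, 0 < cc ∧ ∃ R p₀ : ℕ,
      ∀ p : ℕ, p₀ ≤ p → ∀ [Fact p.Prime], ∀ n₀ m : ℕ, Real.sqrt (2 * n₀) ≤ m → m + p ≤ n₀ → (n₀ : ℝ) ≤ (p : ℝ) ^ B →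
      ∀ (H : Subgroup (ZMod p)ˣ) (a c : (ZMod p)ˣ) (A N : Fin 2 → ℕ), Boxes ε p A N →
        (p : ℝ) ^ (10 + ε) ≤ (∏ j, (N j : ℝ)) ^ 4 * (Nat.card H : ℝ) ^ 3 →
        ∃ G : Finset (ZMod p)ˣ, cc * ((∏ j, (N j : ℝ)) * Nat.card H / (p : ℝ) ^ 2) / Real.log p ^ 4 ≤ G.card ∧
          ∀ u ∈ G, u ∈ H ∧ Hit (Partition n₀ m ((p : ℝ) ^ κ) R) A N 0 ((a * u : (ZMod p)ˣ) : ZMod p).val ∧
            Hit (Partition n₀ m ((p : ℝ) ^ κ) R) A N 1 ((c * u⁻¹ : (ZMod p)ˣ) : ZMod p).val) ∧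
    (∀ ε : ℝ, 0 < ε → ε ≤ 1 → ∃ κ : ℝ, 0 < κ ∧ ∃ cc : ℝ, 0 < cc ∧ ∃ R p₀ : ℕ,
      ∀ p : ℕ, p₀ ≤ p → p.Prime → ∀ n₀ m : ℕ, Real.sqrt (2 * n₀) ≤ m → m + p ≤ n₀ → (n₀ : ℝ) ≤ (p : ℝ) ^ B →
      ∀ t : ℕ, IsLeast {m : ℕ | 0 < m ∧ p ∣ Nat.fib m ∧ Nat.fib (m + 1) ≡ 1 [MOD p]} t →
      ∀ A N : Fin 2 → ℕ, Boxes ε p A N → (p : ℝ) ^ (10 + ε) ≤ (∏ j, (N j : ℝ)) ^ 4 * (t : ℝ) ^ 3 →
        ∃ G : Finset ℕ, cc * ((∏ j, (N j : ℝ)) * t / (p : ℝ) ^ 2) / Real.log p ^ 4 ≤ G.card ∧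
          ∀ n ∈ G, n < 2 * t ∧ Hit (Partition n₀ m ((p : ℝ) ^ κ) R) A N 0 (Nat.fib n % p) ∧
            Hit (Partition n₀ m ((p : ℝ) ^ κ) R) A N 1 (Nat.fib (n + 1) % p)) := by
  have hlg : ∀ (a p s : ℕ) (t : ℝ), t * lg 2 a p ≤ (s : ℝ) → t / Real.log p ^ (2 * a) ≤ s := by
    intro a p s t h
    rwa [lg, mul_one_div] at h
  have hlg2 : ∀ (p s : ℕ) (t : ℝ), t * lg 2 2 p ≤ (s : ℝ) → t / Real.log p ^ 4 ≤ s := by
    intro p s t h
    rwa [lg, mul_one_div] at h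
  refine ⟨?_, ?_, ?_, ?_⟩
  · intro r ε h0 h1
    obtain ⟨κ, hκ, cc, hcc, p₀, h⟩ := Pool.Agent.KS6_52.SQ.invC
      (Near (B + 4) : PE 2 0 2 → ℝ → ℝ → ℤ → Prop) (lg (0 + 2) r) r (csN 2 0 2 (B + 4) r) ε h0 h1
    refine ⟨κ, hκ, cc, hcc, ⌊(((B + 4 : ℕ) : ℝ) + ((2 : ℕ) : ℝ) + 1) / κ⌋₊, max p₀ 2, ?_⟩
    intro p hp _ n₀ m hm hmp hnB Γ T hT Ω hΩ A N hAN hW
    obtain ⟨G, g1, g2⟩ := h p ((le_max_left _ _).trans hp) (sys n₀ m) _
      (fun x hx hnear => part_of B p n₀ m ((le_max_right _ _).trans hp) hm hmp hnB κ x hx hnear) Γ T hT Ω hΩ A N hAN hW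
    exact ⟨G, hlg _ _ _ _ g1, g2⟩
  · intro ε h0 h1
    obtain ⟨κ, hκ, cc, hcc, p₀, h⟩ := Pool.Agent.KS6_52.SQ.sl2C
      (Near (B + 4) : PE 2 0 2 → ℝ → ℝ → ℤ → Prop) (lg (0 + 2) 2) (csN 2 0 2 (B + 4) 2) ε h0 h1
    refine ⟨κ, hκ, cc, hcc, ⌊(((B + 4 : ℕ) : ℝ) + ((2 : ℕ) : ℝ) + 1) / κ⌋₊, max p₀ 2, ?_⟩
    intro p hp _ n₀ m hm hmp hnB M hM htr x hx hx0 A N hAN hW
    obtain ⟨G, g1, g2⟩ := (h p ((le_max_left _ _).trans hp)).2 (sys n₀ m) _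
      (fun x hx hnear => part_of B p n₀ m ((le_max_right _ _).trans hp) hm hmp hnB κ x hx hnear) M hM htr x hx hx0 A N hAN hW
    exact ⟨G, hlg2 _ _ _ g1, g2⟩
  · intro ε h0 h1
    obtain ⟨κ, hκ, cc, hcc, p₀, h⟩ := Pool.Agent.KS6_52.SQ.inversesC
      (Near (B + 4) : PE 2 0 2 → ℝ → ℝ → ℤ → Prop) (lg (0 + 2) 2) (csN 2 0 2 (B + 4) 2) ε h0 h1
    refine ⟨κ, hκ, cc, hcc, ⌊(((B + 4 : ℕ) : ℝ) + ((2 : ℕ) : ℝ) + 1) / κ⌋₊, max p₀ 2, ?_⟩
    intro p hp _ n₀ m hm hmp hnB H a c A N hAN hW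
    obtain ⟨G, g1, g2⟩ := h p ((le_max_left _ _).trans hp) (sys n₀ m) _
      (fun x hx hnear => part_of B p n₀ m ((le_max_right _ _).trans hp) hm hmp hnB κ x hx hnear) H a c A N hAN hW
    refine ⟨G, hlg2 _ _ _ g1, fun u hu => ?_⟩
    obtain ⟨h2, h3, h4, h5, h6⟩ := g2 u hu
    exact ⟨h2, ⟨h3, h5⟩, ⟨h4, h6⟩⟩
  · intro ε h0 h1
    obtain ⟨κ, hκ, cc, hcc, p₀, h⟩ := Pool.Agent.KS6_52.SQ.fibonacciC
      (Near (B + 4) : PE 2 0 2 → ℝ → ℝ → ℤ → Prop) (lg (0 + 2) 2) (csN 2 0 2 (B + 4) 2) ε h0 h1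
    refine ⟨κ, hκ, cc, hcc, ⌊(((B + 4 : ℕ) : ℝ) + ((2 : ℕ) : ℝ) + 1) / κ⌋₊, max p₀ 2, ?_⟩
    intro p hp hpp n₀ m hm hmp hnB t hlt A N hAN hW
    obtain ⟨G, g1, g2⟩ := h p ((le_max_left _ _).trans hp) hpp (sys n₀ m) _
      (fun x hx hnear => part_of B p n₀ m ((le_max_right _ _).trans hp) hm hmp hnB κ x hx hnear) t hlt A N hAN hW
    refine ⟨G, hlg2 _ _ _ g1, fun n hn => ?_⟩
    obtain ⟨h2, h3, h4, h5, h6⟩ := g2 n hn
    exact ⟨h2, ⟨h3, h5⟩, ⟨h4, h6⟩⟩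

end Pool.Agent.Results.MP_33f996_nt.PartitionsAtInverses
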